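import Pool.Agent.H67.AG.T7
import Pool.Agent.H40.AG.Base

/-!
ABSOLUTE GAP (`MP_c59857_nt`), row MSM: the mismatch of the selected reference and the last point.
-/

set_option autoImplicit false
set_option linter.unusedSectionVars false

open MeasureTheory ProbabilityTheory Filter Topology Finset
open scoped Nat ENNReal

namespace Pool.Agent.H9.AG.MS

open Pool.Agent.H67.AG
open Pool.Agent.H40.AG (inv_le rt_le set_inv_iff meas_it mp_it bint av_meas av_bdd TT_it)

section one

variable (c : CtxE)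

/-- mismatch of two points -/
noncomputable def mm (i : Fin c.k) (x y : c.X) : ℝ := dl c.D1 c.D2 i (x, y)

theorem mm_eq {i : Fin c.k} {x y : c.X} (h : c.Dt i x = c.Dt i y) : mm c i x y = 0 := if_pos h

theorem mm_ne {i : Fin c.k} {x y : c.X} (h : c.Dt i x ≠ c.Dt i y) : mm c i x y = 1 := if_neg h

theorem mm_nonneg (i : Fin c.k) (x y : c.X) : 0 ≤ mm c i x y := by
  by_cases h : c.Dt i x = c.Dt i y
  · rw [mm_eq c h]
  · rw [mm_ne c h]; norm_num

theorem mm_le_one (i : Fin c.k) (x y : c.X) : mm c i x y ≤ 1 := by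
  by_cases h : c.Dt i x = c.Dt i y
  · rw [mm_eq c h]; norm_num
  · rw [mm_ne c h]

theorem mm_comm (i : Fin c.k) (x y : c.X) : mm c i x y = mm c i y x := by
  by_cases h : c.Dt i x = c.Dt i y
  · rw [mm_eq c h, mm_eq c h.symm]
  · rw [mm_ne c h, mm_ne c (Ne.symm h)]

theorem mm_tri (i : Fin c.k) (x y z : c.X) : mm c i x z ≤ mm c i x y + mm c i y z := by
  by_cases h : c.Dt i x = c.Dt i z
  · rw [mm_eq c h]
    exact add_nonneg (mm_nonneg c _ _ _) (mm_nonneg c _ _ _)
  · by_cases h1 : c.Dt i x = c.Dt i y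
    · have h2 : c.Dt i y ≠ c.Dt i z := fun h2 => h (h1.trans h2)
      rw [mm_ne c h, mm_eq c h1, mm_ne c h2]; norm_num
    · rw [mm_ne c h, mm_ne c h1]
      linarith [mm_nonneg c i y z]

theorem dL_eq (W L : ℕ) (x y : c.X) :
    c.dL W L (x, y) = ∑ i, (∑ l ∈ range L, mm c i (c.T^[W * l] x) (c.T^[W * l] y)) / L := by
  unfold CtxE.dL Av
  refine Finset.sum_congr rfl fun i _ => ?_
  congr 1
  refine Finset.sum_congr rfl fun l _ => ?_
  rw [TT_it]
  rfl

theorem dL_nonneg (W L : ℕ) (x y : c.X) : 0 ≤ c.dL W L (x, y) := by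
  rw [dL_eq]
  exact Finset.sum_nonneg fun i _ =>
    div_nonneg (Finset.sum_nonneg fun l _ => mm_nonneg c _ _ _) (Nat.cast_nonneg _)

theorem dL_le (W L : ℕ) (hL : 0 < L) (x y : c.X) : c.dL W L (x, y) ≤ c.k := by
  rw [dL_eq]
  have hLR : (0 : ℝ) < L := by exact_mod_cast hL
  calc _ ≤ ∑ i : Fin c.k, (1 : ℝ) := by
        refine Finset.sum_le_sum fun i _ => ?_
        rw [div_le_iff₀ hLR, one_mul]
        calc _ ≤ ∑ l ∈ range L, (1 : ℝ) := Finset.sum_le_sum fun l _ => mm_le_one c _ _ _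
          _ = L := by simp
    _ = c.k := by simp

theorem dL_comm (W L : ℕ) (x y : c.X) : c.dL W L (x, y) = c.dL W L (y, x) := by
  rw [dL_eq, dL_eq]
  refine Finset.sum_congr rfl fun i _ => ?_
  congr 1
  exact Finset.sum_congr rfl fun l _ => mm_comm c _ _ _

theorem dL_tri (W L : ℕ) (x y z : c.X) :
    c.dL W L (x, z) ≤ c.dL W L (x, y) + c.dL W L (y, z) := by
  rw [dL_eq, dL_eq, dL_eq, ← Finset.sum_add_distrib]
  refine Finset.sum_le_sum fun i _ => ?_
  rw [← add_div, ← Finset.sum_add_distrib]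
  refine div_le_div_of_nonneg_right ?_ (Nat.cast_nonneg _)
  exact Finset.sum_le_sum fun l _ => mm_tri c _ _ _ _

theorem Dt_meas (i : Fin c.k) : Measurable (c.Dt i) := c.Dm.comp (meas_it c.T (c.β i))

theorem dl_meas (i : Fin c.k) : Measurable (dl c.D1 c.D2 i) := by
  unfold dl
  refine Measurable.ite ?_ measurable_const measurable_const
  exact measurableSet_eq_fun ((Dt_meas c i).comp measurable_fst) ((Dt_meas c i).comp measurable_snd)

theorem dL_meas (W L : ℕ) : Measurable (c.dL W L) := by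
  unfold CtxE.dL
  exact Finset.measurable_sum _ fun i _ => av_meas (TT c.T) W L (dl_meas c i)

theorem MR_meas (Z : SA c.X) : Measurable (c.MR Z) := by
  unfold CtxE.MR Mis
  exact Finset.measurable_sum _ fun i _ =>
    stronglyMeasurable_condExp.measurable.mono (rt_le _) le_rfl

theorem TX_it (n m : ℕ) (q : XX c.X n) : (TX c.T n)^[m] q =
    ((c.T^[m] q.1.1, c.T^[m] q.1.2), (fun b => c.T^[m] (q.2.1 b), c.T^[m] q.2.2)) := by
  induction m generalizing q with
  | zero => rfl
  | succ m ih =>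
    rw [Function.iterate_succ_apply, ih]
    rfl

theorem pa_meas (n : ℕ) (a b : Fin n) : Measurable fun q : XX c.X n => (q.2.1 a, q.2.1 b) :=
  ((measurable_pi_apply a).comp (measurable_fst.comp measurable_snd)).prodMk
    ((measurable_pi_apply b).comp (measurable_fst.comp measurable_snd))

theorem pl_meas (n : ℕ) (b : Fin n) : Measurable fun q : XX c.X n => (q.2.1 b, q.2.2) :=
  ((measurable_pi_apply b).comp (measurable_fst.comp measurable_snd)).prodMk
    (measurable_snd.comp measurable_snd)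

theorem B_meas (n : ℕ) {B : Set c.X} (hB : MeasurableSet B) :
    MeasurableSet {q : XX c.X n | q.1.1 ∈ B} := (measurable_fst.comp measurable_fst) hB

theorem GG_meas (Z : SA c.X) (W L n : ℕ) {B : Set c.X} (hB : MeasurableSet B) :
    MeasurableSet (c.GG Z W L n B) := by
  have e : c.GG Z W L n B = {q : XX c.X (n + 1) | q.1.1 ∈ B} ∩
      ((⋃ b : Fin (n + 1), {q : XX c.X (n + 1) | c.dL W L (q.2.1 b, q.2.2) ≤ 2 * m1}) ∩
      ⋂ a : Fin (n + 1), ⋂ b : Fin (n + 1), {q : XX c.X (n + 1) | a ≠ b →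
          |c.dL W L (q.2.1 a, q.2.1 b) - c.MR Z (q.2.1 a, q.2.1 b)| ≤ 1 / 100 ∧
          (c.MR Z (q.2.1 a, q.2.1 b) ≤ m1 ∨ 1 - m1 ≤ c.MR Z (q.2.1 a, q.2.1 b))}) := by
    ext q
    simp only [CtxE.GG, Set.mem_inter_iff, Set.mem_iUnion, Set.mem_iInter, Set.mem_ofPred_eq]
  rw [e]
  refine (B_meas c (n + 1) hB).inter (MeasurableSet.inter ?_ ?_)
  · exact MeasurableSet.iUnion fun b =>
      measurableSet_le ((dL_meas c W L).comp (pl_meas c (n + 1) b)) measurable_const
  · refine MeasurableSet.iInter fun a => MeasurableSet.iInter fun b => ?_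
    by_cases hab : a = b
    · have : {q : XX c.X (n + 1) | a ≠ b →
          |c.dL W L (q.2.1 a, q.2.1 b) - c.MR Z (q.2.1 a, q.2.1 b)| ≤ 1 / 100 ∧
          (c.MR Z (q.2.1 a, q.2.1 b) ≤ m1 ∨ 1 - m1 ≤ c.MR Z (q.2.1 a, q.2.1 b))} = Set.univ := by
        ext q
        simp [hab]
      rw [this]
      exact MeasurableSet.univ
    · have hM : Measurable fun q : XX c.X (n + 1) => c.MR Z (q.2.1 a, q.2.1 b) :=
        (MR_meas c Z).comp (pa_meas c (n + 1) a b)
      have hD : Measurable fun q : XX c.X (n + 1) => c.dL W L (q.2.1 a, q.2.1 b) :=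
        (dL_meas c W L).comp (pa_meas c (n + 1) a b)
      have : {q : XX c.X (n + 1) | a ≠ b →
          |c.dL W L (q.2.1 a, q.2.1 b) - c.MR Z (q.2.1 a, q.2.1 b)| ≤ 1 / 100 ∧
          (c.MR Z (q.2.1 a, q.2.1 b) ≤ m1 ∨ 1 - m1 ≤ c.MR Z (q.2.1 a, q.2.1 b))} =
          {q : XX c.X (n + 1) |
            |c.dL W L (q.2.1 a, q.2.1 b) - c.MR Z (q.2.1 a, q.2.1 b)| ≤ 1 / 100} ∩
          ({q : XX c.X (n + 1) | c.MR Z (q.2.1 a, q.2.1 b) ≤ m1} ∪
            {q : XX c.X (n + 1) | 1 - m1 ≤ c.MR Z (q.2.1 a, q.2.1 b)}) := by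
        ext q
        simp [hab]
      rw [this]
      refine (measurableSet_le ?_ measurable_const).inter
        ((measurableSet_le hM measurable_const).union (measurableSet_le measurable_const hM))
      exact (hD.sub hM).abs

theorem BG_meas (Z : SA c.X) (W L n : ℕ) {B : Set c.X} (hB : MeasurableSet B) :
    MeasurableSet (c.BG Z W L n B) :=
  (B_meas c (n + 1) hB).inter (GG_meas c Z W L n hB).compl

theorem sel_mem (W L n : ℕ) (B : Set c.X) (q : XX c.X (n + 1)) (hB : q.1.1 ∈ B)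
    (b : Fin (n + 1)) (hb : c.dL W L (q.2.1 b, q.2.2) ≤ 1 / 2) :
    c.dL W L (q.2.1 (c.sel W L n B q), q.2.2) ≤ 1 / 2 := by
  classical
  have h : (univ.filter fun b => c.dL W L (q.2.1 b, q.2.2) ≤ 1 / 2).Nonempty ∧ q.1.1 ∈ B :=
    ⟨⟨b, by simp only [Finset.mem_filter, Finset.mem_univ, true_and]; exact hb⟩, hB⟩
  have h1 : c.sel W L n B q =
      (univ.filter fun b => c.dL W L (q.2.1 b, q.2.2) ≤ 1 / 2).min' h.1 := by
    unfold CtxE.sel
    rw [dif_pos h]
  rw [h1]
  exact (Finset.mem_filter.1 (Finset.min'_mem _ h.1)).2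

/-- the pointwise estimate -/
theorem point (Z : SA c.X) (W L n : ℕ) (hL : 0 < L) (B : Set c.X) (q : XX c.X (n + 1)) :
    ({q : XX c.X (n + 1) | q.1.1 ∈ B}).indicator
      (fun q => c.dL W L (q.2.1 (c.sel W L n B q), q.2.2)) q ≤
    3 * m1 * ({q : XX c.X (n + 1) | q.1.1 ∈ B}).indicator (fun _ => (1 : ℝ)) q +
    ∑ a, ∑ b, (if a = b then 0 else
      |c.dL W L (q.2.1 a, q.2.1 b) - c.MR Z (q.2.1 a, q.2.1 b)|) +
    (c.k : ℝ) * (c.BG Z W L n B).indicator (fun _ => (1 : ℝ)) q := by
  have hm1 : (0 : ℝ) ≤ m1 := by unfold m1; norm_num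
  have hs0 : ∀ a b : Fin (n + 1), 0 ≤ (if a = b then (0 : ℝ) else
      |c.dL W L (q.2.1 a, q.2.1 b) - c.MR Z (q.2.1 a, q.2.1 b)|) := by
    intro a b
    split_ifs
    · exact le_rfl
    · exact abs_nonneg _
  have hs : 0 ≤ ∑ a, ∑ b, (if a = b then (0 : ℝ) else
      |c.dL W L (q.2.1 a, q.2.1 b) - c.MR Z (q.2.1 a, q.2.1 b)|) :=
    Finset.sum_nonneg fun a _ => Finset.sum_nonneg fun b _ => hs0 a b
  by_cases hB : q.1.1 ∈ B
  · have e1 : ({q : XX c.X (n + 1) | q.1.1 ∈ B}).indicator
      (fun q => c.dL W L (q.2.1 (c.sel W L n B q), q.2.2)) q =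
      c.dL W L (q.2.1 (c.sel W L n B q), q.2.2) := Set.indicator_of_mem (s := {q : XX c.X (n + 1) | q.1.1 ∈ B}) hB _
    have e2 : ({q : XX c.X (n + 1) | q.1.1 ∈ B}).indicator (fun _ => (1 : ℝ)) q = 1 :=
      Set.indicator_of_mem (s := {q : XX c.X (n + 1) | q.1.1 ∈ B}) hB _
    rw [e1, e2, mul_one]
    by_cases hG : q ∈ c.GG Z W L n B
    · have e3 : (c.BG Z W L n B).indicator (fun _ => (1 : ℝ)) q = 0 :=
        Set.indicator_of_notMem (fun h => h.2 hG) _
      rw [e3, mul_zero, add_zero]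
      obtain ⟨-, ⟨b0, hb0⟩, hG3⟩ := hG
      have hb0' : c.dL W L (q.2.1 b0, q.2.2) ≤ 1 / 2 := by
        refine hb0.trans ?_
        unfold m1; norm_num
      have hu := sel_mem c W L n B q hB b0 hb0'
      set s := c.sel W L n B q with hsdef
      by_cases hsb : s = b0
      · rw [hsb]
        linarith
      · obtain ⟨h1, h2⟩ := hG3 s b0 hsb
        have h3 : c.dL W L (q.2.1 s, q.2.1 b0) ≤ 1 / 2 + 2 * m1 := by
          have := dL_tri c W L (q.2.1 s) q.2.2 (q.2.1 b0)
          rw [dL_comm c W L q.2.2 (q.2.1 b0)] at this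
          linarith
        have h4 : c.MR Z (q.2.1 s, q.2.1 b0) ≤ m1 := by
          rcases h2 with h2 | h2
          · exact h2
          · exfalso
            have h5 := (abs_le.1 h1).1
            have h6 : m1 = 81 / 100000 := rfl
            rw [h6] at h2 h3
            linarith
        have h7 := dL_tri c W L (q.2.1 s) (q.2.1 b0) q.2.2
        have h8 : |c.dL W L (q.2.1 s, q.2.1 b0) - c.MR Z (q.2.1 s, q.2.1 b0)| ≤
            ∑ a, ∑ b, (if a = b then (0 : ℝ) else
              |c.dL W L (q.2.1 a, q.2.1 b) - c.MR Z (q.2.1 a, q.2.1 b)|) := by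
          have h9 : (if s = b0 then (0 : ℝ) else
              |c.dL W L (q.2.1 s, q.2.1 b0) - c.MR Z (q.2.1 s, q.2.1 b0)|) ≤
              ∑ b, (if s = b then (0 : ℝ) else
              |c.dL W L (q.2.1 s, q.2.1 b) - c.MR Z (q.2.1 s, q.2.1 b)|) :=
            Finset.single_le_sum (f := fun b => if s = b then (0 : ℝ) else
              |c.dL W L (q.2.1 s, q.2.1 b) - c.MR Z (q.2.1 s, q.2.1 b)|)
              (fun b _ => hs0 s b) (Finset.mem_univ b0)
          rw [if_neg hsb] at h9
          refine h9.trans ?_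
          exact Finset.single_le_sum (f := fun a => ∑ b, (if a = b then (0 : ℝ) else
              |c.dL W L (q.2.1 a, q.2.1 b) - c.MR Z (q.2.1 a, q.2.1 b)|))
              (fun a _ => Finset.sum_nonneg fun b _ => hs0 a b) (Finset.mem_univ s)
        have h10 := le_abs_self (c.dL W L (q.2.1 s, q.2.1 b0) - c.MR Z (q.2.1 s, q.2.1 b0))
        linarith
    · have e3 : (c.BG Z W L n B).indicator (fun _ => (1 : ℝ)) q = 1 :=
        Set.indicator_of_mem (s := c.BG Z W L n B) ⟨hB, hG⟩ _
      rw [e3, mul_one]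
      have := dL_le c W L hL (q.2.1 (c.sel W L n B q)) q.2.2
      linarith
  · have e1 : ({q : XX c.X (n + 1) | q.1.1 ∈ B}).indicator
      (fun q => c.dL W L (q.2.1 (c.sel W L n B q), q.2.2)) q = 0 :=
      Set.indicator_of_notMem (s := {q : XX c.X (n + 1) | q.1.1 ∈ B}) hB _
    have e2 : ({q : XX c.X (n + 1) | q.1.1 ∈ B}).indicator (fun _ => (1 : ℝ)) q = 0 :=
      Set.indicator_of_notMem (s := {q : XX c.X (n + 1) | q.1.1 ∈ B}) hB _
    have e3 : (c.BG Z W L n B).indicator (fun _ => (1 : ℝ)) q = 0 :=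
      Set.indicator_of_notMem (fun h => hB h.1) _
    rw [e1, e2, e3]
    linarith

end one

/-- **MSM.** -/
theorem pf_MSM (hslv : T_SLV) : T_MSM := by
  intro c Z B W L n h P _ hP hW hL hLh hB hMR
  obtain ⟨hsel, -, -⟩ := hslv c Z B W L n 0 P hP hW hL hB
  have hLR : (0 : ℝ) < L := by exact_mod_cast hL
  obtain ⟨hBm, hBi⟩ := (set_inv_iff c.T W B).1 hB
  have hBi' : ∀ (l : ℕ) (x : c.X), c.T^[W * l] x ∈ B ↔ x ∈ B := by
    intro l
    induction l with
    | zero => intro x; simp
    | succ l ih =>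
      intro x
      have : c.T^[W * (l + 1)] x = c.T^[W] (c.T^[W * l] x) := by
        rw [← Function.iterate_add_apply]
        congr 1
        ring
      rw [this, hBi, ih]
  set Bs : Set (XX c.X (n + 1)) := {q | q.1.1 ∈ B} with hBs
  have hBsm : MeasurableSet Bs := B_meas c (n + 1) hBm
  have hBGm := BG_meas c Z W L n hBm
  -- the sets
  set F : Fin c.k → ℕ → Set (XX c.X (n + 1)) := fun i l => {q | q.1.1 ∈ B ∧
    c.Dt i (c.T^[W * l] (q.2.1 (c.sel W L n B q))) ≠ c.Dt i (c.T^[W * l] q.2.2)} with hF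
  have hFm : ∀ i l, MeasurableSet (F i l) := by
    intro i l
    have h1 : F i l = ⋃ b : Fin (n + 1), ((c.sel W L n B) ⁻¹' {b} ∩ (Bs ∩
        {q | c.Dt i (c.T^[W * l] (q.2.1 b)) ≠ c.Dt i (c.T^[W * l] q.2.2)})) := by
      ext q
      simp only [hF, Set.mem_ofPred_eq, Set.mem_iUnion, Set.mem_inter_iff, Set.mem_preimage,
        Set.mem_singleton_iff, hBs]
      constructor
      · rintro ⟨h1, h2⟩
        exact ⟨c.sel W L n B q, rfl, h1, h2⟩
      · rintro ⟨b, rfl, h1, h2⟩
        exact ⟨h1, h2⟩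
    rw [h1]
    refine MeasurableSet.iUnion fun b => (hsel (measurableSet_singleton b)).inter
      (hBsm.inter ?_)
    refine MeasurableSet.compl (measurableSet_eq_fun ?_ ?_)
    · exact (Dt_meas c i).comp ((meas_it c.T (W * l)).comp
        ((measurable_pi_apply b).comp (measurable_fst.comp measurable_snd)))
    · exact (Dt_meas c i).comp ((meas_it c.T (W * l)).comp
        (measurable_snd.comp measurable_snd))
  have hE0 : ∀ i, {q : XX c.X (n + 1) | q.1.1 ∈ B ∧
      c.Dt i (q.2.1 (c.sel W L n B q)) ≠ c.Dt i q.2.2} = F i 0 := by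
    intro i
    ext q
    simp [hF]
  -- step 1
  have step1 : ∀ i, ∀ l < L, P.real (F i 0) ≤ P.real (F i l) +
      32 * c.k * P.real (c.BG Z W L n B) := by
    intro i l hl
    have hS := mp_it hP (W * l)
    have h1 : P.real (F i 0) = P.real ((TX c.T (n + 1))^[W * l] ⁻¹' (F i 0)) := by
      rw [measureReal_def, measureReal_def, hS.measure_preimage (hFm i 0).nullMeasurableSet]
    have h2 : (TX c.T (n + 1))^[W * l] ⁻¹' (F i 0) ⊆ F i l ∪
        {q | c.sel W L n B ((TX c.T (n + 1))^[W * l] q) ≠ c.sel W L n B q} := by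
      intro q hq
      by_cases hs : c.sel W L n B ((TX c.T (n + 1))^[W * l] q) = c.sel W L n B q
      · left
        simp only [hF, Set.mem_preimage, Set.mem_ofPred_eq, mul_zero, Function.iterate_zero,
          id_eq] at hq ⊢
        rw [hs] at hq
        rw [TX_it c (n + 1) (W * l) q] at hq
        exact ⟨(hBi' l _).1 hq.1, hq.2⟩
      · right
        exact hs
    obtain ⟨-, -, h3⟩ := hslv c Z B W L n l P hP hW hL hB
    have h4 := h3 h hLh hl.le
    rw [h1]
    refine (measureReal_mono h2).trans ((measureReal_union_le _ _).trans ?_)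
    linarith
  have step2 : ∀ i, P.real (F i 0) ≤ (∑ l ∈ range L, P.real (F i l)) / L +
      32 * c.k * P.real (c.BG Z W L n B) := by
    intro i
    have h1 : ∑ l ∈ range L, P.real (F i 0) ≤ ∑ l ∈ range L, (P.real (F i l) +
      32 * c.k * P.real (c.BG Z W L n B)) :=
      Finset.sum_le_sum fun l hl => step1 i l (Finset.mem_range.1 hl)
    rw [Finset.sum_add_distrib, Finset.sum_const, Finset.sum_const, Finset.card_range,
      nsmul_eq_mul, nsmul_eq_mul] at h1
    rw [← sub_le_iff_le_add, le_div_iff₀ hLR]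
    linarith
  have step3 : ∑ i, P.real (F i 0) ≤ (∑ i, (∑ l ∈ range L, P.real (F i l)) / L) +
      32 * (c.k : ℝ) ^ 2 * P.real (c.BG Z W L n B) := by
    refine (Finset.sum_le_sum fun i _ => step2 i).trans (le_of_eq ?_)
    rw [Finset.sum_add_distrib, Finset.sum_const, Finset.card_univ, Fintype.card_fin,
      nsmul_eq_mul]
    ring
  -- step 4: the integral
  have step4 : (∑ i, (∑ l ∈ range L, P.real (F i l)) / L) =
      ∫ q, Bs.indicator (fun q => c.dL W L (q.2.1 (c.sel W L n B q), q.2.2)) q ∂P := by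
    have h1 : ∀ i l, P.real (F i l) = ∫ q, (F i l).indicator (fun _ => (1 : ℝ)) q ∂P := by
      intro i l
      rw [integral_indicator_const _ (hFm i l), smul_eq_mul, mul_one]
    have hi : ∀ i l, Integrable ((F i l).indicator (fun _ => (1 : ℝ))) P := fun i l =>
      (integrable_const (1 : ℝ)).indicator (hFm i l)
    have h2 : ∀ i, (∑ l ∈ range L, P.real (F i l)) / L =
        ∫ q, (∑ l ∈ range L, (F i l).indicator (fun _ => (1 : ℝ)) q) / L ∂P := by
      intro i
      rw [integral_div, integral_finsetSum _ (fun l _ => hi i l)]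
      congr 1
      exact Finset.sum_congr rfl fun l _ => h1 i l
    rw [Finset.sum_congr rfl fun i _ => h2 i, ← integral_finsetSum _ (fun i _ =>
      (integrable_finsetSum _ fun l _ => hi i l).div_const _)]
    refine integral_congr_ae (ae_of_all _ fun q => ?_)
    by_cases hq : q.1.1 ∈ B
    · have e1 : Bs.indicator (fun q => c.dL W L (q.2.1 (c.sel W L n B q), q.2.2)) q =
        c.dL W L (q.2.1 (c.sel W L n B q), q.2.2) := Set.indicator_of_mem (s := Bs) hq _
      simp only [e1]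
      rw [dL_eq]
      refine Finset.sum_congr rfl fun i _ => ?_
      congr 1
      refine Finset.sum_congr rfl fun l _ => ?_
      by_cases hne : c.Dt i (c.T^[W * l] (q.2.1 (c.sel W L n B q))) = c.Dt i (c.T^[W * l] q.2.2)
      · rw [mm_eq c hne]
        exact Set.indicator_of_notMem (fun h => h.2 hne) _
      · rw [mm_ne c hne]
        exact Set.indicator_of_mem (s := F i l) ⟨hq, hne⟩ _
    · have e1 : Bs.indicator (fun q => c.dL W L (q.2.1 (c.sel W L n B q), q.2.2)) q = 0 :=
        Set.indicator_of_notMem (s := Bs) hq _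
      simp only [e1]
      refine Finset.sum_eq_zero fun i _ => ?_
      rw [Finset.sum_eq_zero, zero_div]
      intro l _
      exact Set.indicator_of_notMem (fun h => hq h.1) _
  -- step 5
  have hDi : ∀ a b, Integrable (fun q : XX c.X (n + 1) => c.dL W L (q.2.1 a, q.2.1 b)) P := by
    intro a b
    refine bint ((dL_meas c W L).comp (pa_meas c (n + 1) a b)) ⟨c.k, fun q => ?_⟩
    rw [abs_of_nonneg (dL_nonneg c W L _ _)]
    exact dL_le c W L hL _ _
  have hite : ∀ a b : Fin (n + 1), Integrable (fun q : XX c.X (n + 1) => if a = b then (0 : ℝ) else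
      |c.dL W L (q.2.1 a, q.2.1 b) - c.MR Z (q.2.1 a, q.2.1 b)|) P := by
    intro a b
    by_cases hab : a = b
    · simp only [hab, if_true]
      exact integrable_zero _ _ _
    · simp only [hab, if_false]
      exact ((hDi a b).sub (hMR a b hab)).abs
  have hsum : Integrable (fun q : XX c.X (n + 1) => ∑ a, ∑ b, (if a = b then (0 : ℝ) else
      |c.dL W L (q.2.1 a, q.2.1 b) - c.MR Z (q.2.1 a, q.2.1 b)|)) P :=
    integrable_finsetSum _ fun a _ => integrable_finsetSum _ fun b _ => hite a b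
  have hBi1 : Integrable (fun q => 3 * m1 * Bs.indicator (fun _ => (1 : ℝ)) q) P :=
    ((integrable_const (1 : ℝ)).indicator hBsm).const_mul _
  have hGi1 : Integrable (fun q => (c.k : ℝ) *
      (c.BG Z W L n B).indicator (fun _ => (1 : ℝ)) q) P :=
    ((integrable_const (1 : ℝ)).indicator hBGm).const_mul _
  have step5 : ∫ q, Bs.indicator (fun q => c.dL W L (q.2.1 (c.sel W L n B q), q.2.2)) q ∂P ≤
      3 * m1 * P.real Bs + ∑ a, ∑ b, (if a = b then 0 else
      ∫ q, |c.dL W L (q.2.1 a, q.2.1 b) - c.MR Z (q.2.1 a, q.2.1 b)| ∂P) +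
      (c.k : ℝ) * P.real (c.BG Z W L n B) := by
    have h1 : ∫ q, Bs.indicator (fun q => c.dL W L (q.2.1 (c.sel W L n B q), q.2.2)) q ∂P ≤
        ∫ q, (3 * m1 * Bs.indicator (fun _ => (1 : ℝ)) q +
          (∑ a, ∑ b, (if a = b then (0 : ℝ) else
            |c.dL W L (q.2.1 a, q.2.1 b) - c.MR Z (q.2.1 a, q.2.1 b)|)) +
          (c.k : ℝ) * (c.BG Z W L n B).indicator (fun _ => (1 : ℝ)) q) ∂P := by
      refine integral_mono_of_nonneg (ae_of_all _ fun q => ?_) ((hBi1.add hsum).add hGi1)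
        (ae_of_all _ fun q => point c Z W L n hL B q)
      exact Set.indicator_nonneg (fun q _ => dL_nonneg c W L _ _) q
    refine h1.trans (le_of_eq ?_)
    have g1 := integral_add (hBi1.add hsum) hGi1
    have g2 := integral_add hBi1 hsum
    simp only [Pi.add_apply] at g1
    rw [g1, g2, integral_const_mul,
      integral_const_mul, integral_indicator_const _ hBsm, integral_indicator_const _ hBGm,
      smul_eq_mul, mul_one, smul_eq_mul, mul_one]
    congr 2
    rw [integral_finsetSum _ fun a _ => integrable_finsetSum _ fun b _ => hite a b]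
    refine Finset.sum_congr rfl fun a _ => ?_
    rw [integral_finsetSum _ fun b _ => hite a b]
    refine Finset.sum_congr rfl fun b _ => ?_
    by_cases hab : a = b
    · simp [hab]
    · simp only [hab, if_false]
  rw [Finset.sum_congr rfl fun i _ => by rw [hE0 i]]
  rw [step4] at step3
  have e : ((c.k : ℝ) + 32 * (c.k : ℝ) ^ 2) * P.real (c.BG Z W L n B) =
    (c.k : ℝ) * P.real (c.BG Z W L n B) + 32 * (c.k : ℝ) ^ 2 * P.real (c.BG Z W L n B) := by ring
  rw [e]
  linarith

end Pool.Agent.H9.AG.MS
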